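import Pool.Agent.Lib.MP_d40034_al.Concrete

set_option autoImplicit false

namespace Pool.Agent.Results.MP_d40034_al.Unbounded

/-- The least size of a finite generating set of the group H. -/
noncomputable def d (H : Type) [Group H] : ℕ :=
  sInf {n : ℕ | ∃ S : Finset H, S.card = n ∧ Subgroup.closure (S : Set H) = ⊤}

theorem d_eq_rank (H : Type) [Group H] [Finite H] : d H = Group.rank H := by
  classical
  apply le_antisymm
  · exact Nat.sInf_le (Group.rank_spec H)
  · have h : {n : ℕ | ∃ S : Finset H, S.card = n ∧ Subgroup.closure (S : Set H) = ⊤}.Nonempty :=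
      ⟨_, Group.rank_spec H⟩
    obtain ⟨S, hS, hS'⟩ := Nat.sInf_mem h
    exact (Group.rank_le hS').trans hS.le

theorem result (N : ℕ) :
    ∃ (G : Type) (_ : Group G) (_ : Finite G), (∃ k : ℕ, Nat.card G = 2 ^ k) ∧
      (∀ H : Subgroup G, H ≠ ⊤ → d H < d G) ∧ derivedSeries G N ≠ ⊥ := by
  open Pool.Agent.Lib.MP_d40034_al in
  refine ⟨Gp (setup (ex N)), inferInstance, inferInstance, ?_, fun H hH => ?_, derived_ne_bot N⟩
  · haveI : Fact (Nat.Prime 2) := ⟨Nat.prime_two⟩
    exact IsPGroup.iff_card.mp (Pool.Agent.Lib.MP_d40034_al.Gp.isPGroup _)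
  · rw [d_eq_rank, d_eq_rank]
    exact Pool.Agent.Lib.MP_d40034_al.Gp.rank_lt H hH

end Pool.Agent.Results.MP_d40034_al.Unbounded
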